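import Pool.Agent.TH464.PO.Law
import Pool.Agent.Y862.SQ.Lln2

/-!
Integers without small prime factors in short intervals: moments and the Poisson law, for all windows of
starting points.
-/

set_option autoImplicit false

namespace Pool.Agent.R306.One

open Finset Pool.Agent.H373R2.T7 Pool.Agent.W123.RP Pool.Agent.W123.RU Pool.Agent.TH464.PO
open Pool.Agent.Y862.SQ (pr V1)

/-- the system of `Z + n` -/
def QZ (Z p m : ℕ) : Prop := p ∣ Z + m

lemma QZ_nu (Z p : ℕ) (hp : p.Prime) : nuB (QZ Z) p = 1 := by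
  classical
  unfold nuB
  rw [Finset.card_eq_one]
  refine ⟨(p - Z % p) % p, ?_⟩
  have hp0 : 0 < p := hp.pos
  have hZ := Nat.mod_lt Z hp0
  have hZd := Nat.div_add_mod Z p
  ext r
  rw [mem_filter, mem_range, mem_singleton]
  unfold QZ
  have h1 : p ∣ Z + r ↔ p ∣ Z % p + r := by
    constructor
    · intro h
      have h2 : Z + r = p * (Z / p) + (Z % p + r) := by omega
      rw [h2] at h
      exact (Nat.dvd_add_right (Dvd.intro _ rfl)).1 h
    · intro h
      have h2 : Z + r = p * (Z / p) + (Z % p + r) := by omega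
      rw [h2]
      exact (Nat.dvd_add_right (Dvd.intro _ rfl)).2 h
  rw [h1]
  constructor
  · rintro ⟨hr, k, hk⟩
    have hk2 : k < 2 := by
      by_contra hcon
      push Not at hcon
      have : p * 2 ≤ p * k := Nat.mul_le_mul_left p hcon
      omega
    interval_cases k
    · have h3 : Z % p = 0 := by omega
      have h4 : r = 0 := by omega
      rw [h3, h4, Nat.sub_zero, Nat.mod_self]
    · have h3 : r = p - Z % p := by omega
      rw [← h3, Nat.mod_eq_of_lt hr]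
  · rintro rfl
    refine ⟨Nat.mod_lt _ hp0, ?_⟩
    by_cases h3 : Z % p = 0
    · rw [h3, Nat.sub_zero, Nat.mod_self]
      exact dvd_zero _
    · rw [Nat.mod_eq_of_lt (show p - Z % p < p by omega)]
      exact ⟨1, by omega⟩

lemma QZ_per (Z : ℕ) : PerB (QZ Z) 1 where
  per := by
    intro p n
    unfold QZ
    have h2 : Z + n = p * (n / p) + (Z + n % p) := by
      have := Nat.div_add_mod n p
      omega
    constructor
    · intro h
      rw [h2] at h
      exact (Nat.dvd_add_right (Dvd.intro _ rfl)).1 h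
    · intro h
      rw [h2]
      exact (Nat.dvd_add_right (Dvd.intro _ rfl)).2 h
  few := fun p hp => (QZ_nu Z p hp).le

lemma QZ_V (Z y : ℕ) : Vq (QZ Z) y = V1 y := by
  unfold Vq V1
  have : pz y = pr y := rfl
  rw [this]
  apply Finset.prod_congr rfl
  intro p hp
  unfold pr at hp
  rw [QZ_nu Z p (mem_filter.1 hp).2, Nat.cast_one]

/-- the number of the `h ≤ T` such that `n + h` has no prime factor up to `y` -/
def Nl (y T n : ℕ) : ℕ := ((Icc 1 T).filter (fun h => ∀ p ∈ pr y, ¬ p ∣ n + h)).card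

lemma Nl_eq (Z y T v : ℕ) : Nw (QZ Z) y T v = Nl y T (Z + v) := by
  classical
  unfold Nw Nl
  congr 1
  apply Finset.filter_congr
  intro h _
  unfold Sf QZ
  have : pz y = pr y := rfl
  rw [this, add_assoc]

lemma noColl (Z y T : ℕ) (η' : ℝ) (hη' : 0 ≤ η') : by
    classical exact ∀ t ∈ Icc 1 T, ((((pz y).filter (fun p : ℕ => T < p ∧ CoG (QZ Z) p t)).card : ℕ) : ℝ) ≤ η' * T := by
  classical
  intro t ht
  have h0 : (pz y).filter (fun p : ℕ => T < p ∧ CoG (QZ Z) p t) = ∅ := by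
    apply Finset.filter_false_of_mem
    rintro p _ ⟨hTp, m, h1, h2⟩
    unfold QZ at h1 h2
    rw [← add_assoc] at h2
    have h3 : p ∣ t := (Nat.dvd_add_right h1).1 h2
    rw [mem_Icc] at ht
    have := Nat.le_of_dvd (by omega) h3
    omega
  have h1 : (0:ℝ) ≤ η' * T := by positivity
  convert h1
  simp [h0]

lemma sum_shift (Z Y : ℕ) (f : ℕ → ℝ) : ∑ n ∈ Ioc Z (Z + Y), f n = ∑ v ∈ Icc 1 Y, f (Z + v) := by
  symm
  apply Finset.sum_bij (fun v _ => Z + v)
  · intro v hv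
    rw [mem_Icc] at hv
    rw [mem_Ioc]
    omega
  · intro a _ b _ h
    omega
  · intro n hn
    rw [mem_Ioc] at hn
    exact ⟨n - Z, by rw [mem_Icc]; omega, by omega⟩
  · intro v _
    rfl

/-- binomial moments -/
def S_MOML : Prop := ∀ (k : ℕ) (η : ℝ), 0 < η → ∃ K0 y0 T0 : ℕ, ∀ Z Y y T : ℕ, y0 ≤ y →
  y ^ K0 ≤ Y → T0 ≤ T →
  |∑ n ∈ Ioc Z (Z + Y), ((Nl y T n).choose (k + 1) : ℝ) -
    Y * ((T * V1 y) ^ (k + 1) / (k + 1).factorial)| ≤
    η * Y * ((T * V1 y) ^ (k + 1) / (k + 1).factorial) + T ^ (k + 1) * √(Y : ℝ)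

theorem t_MOML : S_MOML := by
  intro k η hη
  obtain ⟨K0, y0, T0, η', hη', h⟩ := moment 1 k le_rfl (min η 1) (by positivity) (min_le_right _ _)
  refine ⟨K0, y0, T0, fun Z Y y T hy hyY hT => ?_⟩
  have h1 := h Y y T hy hyY hT (QZ Z) (QZ_per Z) (fun p hp => by rw [QZ_nu Z p hp]; exact hp.one_lt)
    (noColl Z y T η' hη'.le)
  rw [QZ_V] at h1
  rw [sum_shift Z Y (fun n => ((Nl y T n).choose (k + 1) : ℝ))]
  simp only [Nl_eq] at h1
  refine h1.trans ?_
  have h2 : 0 ≤ (Y : ℝ) * ((T * V1 y) ^ (k + 1) / (k + 1).factorial) := by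
    have := Pool.Agent.Y862.SQ.V1_nonneg y
    positivity
  have h3 : min η 1 * ((Y : ℝ) * ((T * V1 y) ^ (k + 1) / (k + 1).factorial)) ≤
      η * ((Y : ℝ) * ((T * V1 y) ^ (k + 1) / (k + 1).factorial)) :=
    mul_le_mul_of_nonneg_right (min_le_left _ _) h2
  linarith

open Classical in
/-- the Poisson law -/
theorem pois (x0 ε : ℝ) (hx0 : 0 ≤ x0) (hε : 0 < ε) :
    ∃ (K0 y0 T0 R0 : ℕ), ∀ Z Y y T : ℕ, y0 ≤ y → y ^ K0 ≤ Y → T0 ≤ T → T ^ R0 ≤ Y → T * V1 y ≤ x0 →
      ∀ A : Finset ℕ, |(((Ioc Z (Z + Y)).filter (fun n => Nl y T n ∈ A)).card : ℝ) -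
        Y * ∑ j ∈ A, Real.exp (-(T * V1 y)) * (T * V1 y) ^ j / j.factorial| ≤ ε * Y := by
  obtain ⟨K0, y0, T0, R0, η', hη', h⟩ := law 1 le_rfl x0 ε hx0 hε
  refine ⟨K0, y0, T0, R0, fun Z Y y T hy hyY hT hTR hTV A => ?_⟩
  have h1 := h Y y T hy hyY hT hTR (QZ Z) (QZ_per Z)
    (fun p hp => by rw [QZ_nu Z p hp]; exact hp.one_lt) (by rw [QZ_V]; exact hTV)
    (noColl Z y T η' hη'.le) A
  rw [QZ_V] at h1
  have h2 : ((Ioc Z (Z + Y)).filter (fun n => Nl y T n ∈ A)).card =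
      ((Icc 1 Y).filter (fun v => Nw (QZ Z) y T v ∈ A)).card := by
    symm
    apply Finset.card_bij (fun v _ => Z + v)
    · intro v hv
      rw [mem_filter, mem_Icc, Nl_eq] at hv
      rw [mem_filter, mem_Ioc]
      exact ⟨by omega, hv.2⟩
    · intro a _ b _ h
      omega
    · intro n hn
      rw [mem_filter, mem_Ioc] at hn
      refine ⟨n - Z, ?_, by omega⟩
      rw [mem_filter, mem_Icc, Nl_eq, show Z + (n - Z) = n by omega]
      exact ⟨by omega, hn.2⟩
  rw [h2]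
  exact h1

end Pool.Agent.R306.One
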