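import Pool.Agent.R306.One.Lin

set_option autoImplicit false

/-!
The law of large numbers for the integers without small prime factors in short intervals (after helper 862's
proof for the integers just above squares).
-/

namespace Pool.Agent.R306.One

open Finset
open Pool.Agent.Y862.SQ (pr V1 V1_nonneg V1_le_one two_choose close)

/-- **law of large numbers** -/
theorem lln (hmom : S_MOML) (ε : ℝ) (hε : 0 < ε) (hε1 : ε ≤ 1) :
    ∃ (K : ℝ) (K0 y0 T0 : ℕ), 0 < K ∧ ∀ Z Y y T : ℕ, y0 ≤ y → y ^ K0 ≤ Y → T0 ≤ T →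
      T ^ 5 ≤ 1024 * Y → K ≤ T * V1 y →
      (((Ioc Z (Z + Y)).filter (fun n => ε * (T * V1 y) < |(Nl y T n : ℝ) - T * V1 y|)).card : ℝ) ≤
        ε * Y := by
  obtain ⟨η, hη⟩ : ∃ η : ℝ, η = ε ^ 3 / 12 := ⟨_, rfl⟩
  have hη0 : 0 < η := by rw [hη]; positivity
  have hη1 : η ≤ 1 := by
    rw [hη]
    have : ε ^ 3 ≤ 1 := pow_le_one₀ hε.le hε1
    linarith
  obtain ⟨Ka, ya, Ta, ha⟩ := hmom 0 η hη0
  obtain ⟨Kb, yb, Tb, hb⟩ := hmom 1 η hη0
  obtain ⟨Tc, hTc⟩ := exists_nat_ge (1024 * (20 / ε ^ 3) ^ 2)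
  refine ⟨12 / ε ^ 3, Ka + Kb, ya + yb + 1, Ta + Tb + Tc + 1, by positivity, ?_⟩
  intro Z Y y T hy hyY hT hT5 hK
  obtain ⟨x, hx⟩ : ∃ x, x = T * V1 y := ⟨_, rfl⟩
  rw [← hx] at hK ⊢
  have hy1 : 1 ≤ y := by omega
  have hT1 : (1 : ℝ) ≤ T := by exact_mod_cast (by omega : 1 ≤ T)
  have hx1 : 1 ≤ x := by
    refine le_trans ?_ hK
    rw [le_div_iff₀ (by positivity)]
    have : ε ^ 3 ≤ 1 := pow_le_one₀ hε.le hε1
    linarith
  have hxT : x ≤ T := by
    rw [hx]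
    have := mul_le_mul_of_nonneg_left (V1_le_one y) (by linarith : (0 : ℝ) ≤ T)
    linarith
  have h1 := ha Z Y y T (by omega) ((Nat.pow_le_pow_right hy1 (by omega)).trans hyY) (by omega)
  have h2 := hb Z Y y T (by omega) ((Nat.pow_le_pow_right hy1 (by omega)).trans hyY) (by omega)
  rw [← hx] at h1 h2
  simp only [zero_add, Nat.choose_one_right, pow_one, Nat.factorial_one, Nat.cast_one, div_one] at h1
  have hf2 : (((1 + 1).factorial : ℕ) : ℝ) = 2 := by norm_num [Nat.factorial]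
  rw [hf2] at h2
  norm_num at h2
  obtain ⟨A1, hA1⟩ : ∃ A1 : ℝ, A1 = ∑ n ∈ Ioc Z (Z + Y), (Nl y T n : ℝ) := ⟨_, rfl⟩
  obtain ⟨A2, hA2⟩ : ∃ A2 : ℝ, A2 = ∑ n ∈ Ioc Z (Z + Y), ((Nl y T n).choose 2 : ℝ) := ⟨_, rfl⟩
  rw [← hA1] at h1
  rw [← hA2] at h2
  have hYpos : 0 < Y := by
    have : 1 ≤ T ^ 5 := Nat.one_le_pow _ _ (by omega)
    omega
  have hY0 : (0 : ℝ) < Y := by exact_mod_cast hYpos
  have hs0 : 0 ≤ √(Y : ℝ) := Real.sqrt_nonneg _
  have hcard : ((Ioc Z (Z + Y)).card : ℝ) = Y := by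
    rw [Nat.card_Ioc]
    congr 1
    omega
  have hvar : ∑ n ∈ Ioc Z (Z + Y), ((Nl y T n : ℝ) - x) ^ 2 = 2 * A2 + A1 - 2 * x * A1 + Y * x ^ 2 := by
    have e : ∀ n ∈ Ioc Z (Z + Y), ((Nl y T n : ℝ) - x) ^ 2 =
        2 * ((Nl y T n).choose 2 : ℝ) + Nl y T n - 2 * x * Nl y T n + x ^ 2 := by
      intro n _
      have := two_choose (Nl y T n)
      nlinarith
    rw [Finset.sum_congr rfl e, Finset.sum_add_distrib, Finset.sum_sub_distrib, Finset.sum_add_distrib,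
      ← Finset.mul_sum, ← Finset.mul_sum, Finset.sum_const, nsmul_eq_mul, hcard, hA1, hA2]
  -- sizes of the error terms
  have hsq : √(Y : ℝ) * √(Y : ℝ) = Y := Real.mul_self_sqrt hY0.le
  have hTY : (T : ℝ) ^ 2 * (20 / ε ^ 3) ≤ √(Y : ℝ) := by
    apply Real.le_sqrt_of_sq_le
    have h3 : (1024 * (20 / ε ^ 3) ^ 2 : ℝ) ≤ T := hTc.trans (by exact_mod_cast (by omega : Tc ≤ T))
    have h4 : (T : ℝ) ^ 5 ≤ 1024 * Y := by exact_mod_cast hT5
    have h5 : 1024 * ((T : ℝ) ^ 2 * (20 / ε ^ 3)) ^ 2 ≤ (T : ℝ) ^ 5 := by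
      calc 1024 * ((T : ℝ) ^ 2 * (20 / ε ^ 3)) ^ 2 = (T : ℝ) ^ 4 * (1024 * (20 / ε ^ 3) ^ 2) := by ring
        _ ≤ (T : ℝ) ^ 4 * T := by gcongr
        _ = (T : ℝ) ^ 5 := by ring
    linarith
  have hTY2 : (T : ℝ) ^ 2 * √(Y : ℝ) * 20 ≤ ε ^ 3 * Y := by
    have h3 := mul_le_mul_of_nonneg_right hTY hs0
    rw [hsq] at h3
    have h4 : 0 < ε ^ 3 := by positivity
    calc (T : ℝ) ^ 2 * √(Y : ℝ) * 20 = ε ^ 3 * ((T : ℝ) ^ 2 * (20 / ε ^ 3) * √(Y : ℝ)) := by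
          field_simp
      _ ≤ ε ^ 3 * Y := mul_le_mul_of_nonneg_left h3 h4.le
  have hbound : ∑ n ∈ Ioc Z (Z + Y), ((Nl y T n : ℝ) - x) ^ 2 ≤ ε ^ 3 * x ^ 2 * Y := by
    rw [hvar]
    have k1 := (abs_le.1 h1).1
    have k1' := (abs_le.1 h1).2
    have k2' := (abs_le.1 h2).2
    have hT2 : (T : ℝ) ≤ T ^ 2 := by nlinarith
    have hxT2 : x * T ≤ (T : ℝ) ^ 2 := by nlinarith
    have hYx : 0 ≤ Y * x := by positivity
    -- 2 A2 <= (1 + η) Y x^2 + 2 T^2 √Y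
    have m1 : 2 * A2 ≤ (1 + η) * (Y * x ^ 2) + 2 * (T : ℝ) ^ 2 * √(Y : ℝ) := by nlinarith
    have m2 : A1 ≤ (1 + η) * (Y * x) + T * √(Y : ℝ) := by nlinarith
    have m3 : (1 - η) * (Y * x) - T * √(Y : ℝ) ≤ A1 := by nlinarith
    have m4 : 2 * x * ((1 - η) * (Y * x) - T * √(Y : ℝ)) ≤ 2 * x * A1 :=
      mul_le_mul_of_nonneg_left m3 (by linarith)
    have m5 : (T : ℝ) * √(Y : ℝ) ≤ (T : ℝ) ^ 2 * √(Y : ℝ) := mul_le_mul_of_nonneg_right hT2 hs0
    have m6 : x * T * √(Y : ℝ) ≤ (T : ℝ) ^ 2 * √(Y : ℝ) := mul_le_mul_of_nonneg_right hxT2 hs0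
    have m7 : (1 + η) * (Y * x) ≤ 2 * (Y * x) := mul_le_mul_of_nonneg_right (by linarith) hYx
    have m8 : 2 * (Y * x) ≤ ε ^ 3 / 6 * (Y * x ^ 2) := by
      have h4 : 12 ≤ ε ^ 3 * x := by
        rw [div_le_iff₀ (by positivity)] at hK
        linarith
      have h5 := mul_le_mul_of_nonneg_right h4 hYx
      nlinarith
    have m9 : 3 * η * (Y * x ^ 2) = ε ^ 3 / 4 * (Y * x ^ 2) := by rw [hη]; ring
    have m10 : ε ^ 3 * Y ≤ ε ^ 3 * x ^ 2 * Y := by
      have h5 : 1 ≤ x ^ 2 := one_le_pow₀ hx1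
      have h6 : 0 ≤ ε ^ 3 * Y := by positivity
      nlinarith
    calc 2 * A2 + A1 - 2 * x * A1 + Y * x ^ 2 ≤ ((1 + η) * (Y * x ^ 2) + 2 * (T : ℝ) ^ 2 * √(Y : ℝ)) +
          ((1 + η) * (Y * x) + T * √(Y : ℝ)) - 2 * x * ((1 - η) * (Y * x) - T * √(Y : ℝ)) + Y * x ^ 2 := by
          linarith
      _ = 3 * η * (Y * x ^ 2) + (1 + η) * (Y * x) + 2 * (T : ℝ) ^ 2 * √(Y : ℝ) + T * √(Y : ℝ) +
          2 * (x * T * √(Y : ℝ)) := by ring
      _ ≤ ε ^ 3 / 4 * (Y * x ^ 2) + ε ^ 3 / 6 * (Y * x ^ 2) + 5 * ((T : ℝ) ^ 2 * √(Y : ℝ)) := by linarith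
      _ ≤ ε ^ 3 / 4 * (Y * x ^ 2) + ε ^ 3 / 6 * (Y * x ^ 2) + ε ^ 3 * x ^ 2 * Y / 4 := by linarith
      _ ≤ ε ^ 3 * x ^ 2 * Y := by
        have : 0 ≤ ε ^ 3 * x ^ 2 * Y := by positivity
        nlinarith
  -- Chebyshev
  obtain ⟨F, hF⟩ : ∃ F, F = (Ioc Z (Z + Y)).filter (fun n => ε * x < |(Nl y T n : ℝ) - x|) := ⟨_, rfl⟩
  rw [← hF]
  have hcheb : (F.card : ℝ) * (ε * x) ^ 2 ≤ ∑ n ∈ Ioc Z (Z + Y), ((Nl y T n : ℝ) - x) ^ 2 := by
    calc (F.card : ℝ) * (ε * x) ^ 2 = ∑ _n ∈ F, (ε * x) ^ 2 := by rw [Finset.sum_const, nsmul_eq_mul]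
      _ ≤ ∑ n ∈ F, ((Nl y T n : ℝ) - x) ^ 2 := by
        apply Finset.sum_le_sum
        intro n hn
        rw [hF, mem_filter] at hn
        rw [← sq_abs ((Nl y T n : ℝ) - x)]
        apply pow_le_pow_left₀ (by positivity) hn.2.le
      _ ≤ _ := by
        rw [hF]
        apply Finset.sum_le_sum_of_subset_of_nonneg (filter_subset _ _)
        intros
        positivity
  have hpos : 0 < (ε * x) ^ 2 := by positivity
  have h5 : (F.card : ℝ) * (ε * x) ^ 2 ≤ ε * Y * (ε * x) ^ 2 := by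
    refine (hcheb.trans hbound).trans (le_of_eq ?_)
    ring
  exact le_of_mul_le_mul_right h5 hpos

lemma Nl_mono (y : ℕ) {s t : ℕ} (h : s ≤ t) (n : ℕ) : Nl y s n ≤ Nl y t n := by
  unfold Nl
  apply card_le_card
  intro a ha
  rw [mem_filter, mem_Icc] at ha ⊢
  exact ⟨⟨ha.1.1, ha.1.2.trans h⟩, ha.2⟩

/-- the law of large numbers fails for some length between `T` and `2 T` -/
def BadL (ε : ℝ) (y T n : ℕ) : Prop := ∃ t ∈ Icc T (2 * T),
  ε * (t * V1 y) < |(Nl y t n : ℝ) - t * V1 y|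

open Classical in
/-- **law of large numbers, uniform in the length** -/
theorem lln_unif (hmom : S_MOML) (ε : ℝ) (hε : 0 < ε) (hε1 : ε ≤ 1) :
    ∃ (K : ℝ) (K0 y0 T0 : ℕ), 0 < K ∧ ∀ Z Y y T : ℕ, y0 ≤ y → y ^ K0 ≤ Y → T0 ≤ T → T ^ 5 ≤ Y →
      K ≤ T * V1 y →
      (((Ioc Z (Z + Y)).filter (fun n => BadL ε y T n)).card : ℝ) ≤ ε * Y := by
  obtain ⟨q, hq⟩ : ∃ q : ℝ, q = 1 + ε / 8 := ⟨_, rfl⟩
  have hq1 : 1 < q := by rw [hq]; linarith
  obtain ⟨J, hJ⟩ : ∃ J : ℕ, 2 < q ^ J := pow_unbounded_of_one_lt 2 hq1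
  obtain ⟨δ, hδ⟩ : ∃ δ : ℝ, δ = ε / (8 * (J + 1)) := ⟨_, rfl⟩
  have hJ1 : (1 : ℝ) ≤ (J : ℝ) + 1 := by
    have : (0 : ℝ) ≤ J := Nat.cast_nonneg J
    linarith
  have hδ0 : 0 < δ := by rw [hδ]; positivity
  have hδε : δ ≤ ε / 8 := by
    rw [hδ]
    apply div_le_div_of_nonneg_left hε.le (by norm_num)
    linarith
  have hδJ : (J + 1) * δ ≤ ε := by
    rw [hδ]
    have : ((J : ℝ) + 1) * (ε / (8 * (J + 1))) = ε / 8 := by field_simp
    rw [this]
    linarith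
  obtain ⟨K, K0, y0, T0, hK, hl⟩ := lln hmom δ hδ0 (by linarith)
  obtain ⟨T1, hT1⟩ := exists_nat_ge (16 / ε)
  refine ⟨K, K0, y0, T0 + T1 + 1, hK, ?_⟩
  intro Z Y y T hy hyY hT hT5 hKT
  have hV0 := V1_nonneg y
  have hT1' : (16 / ε : ℝ) ≤ T := hT1.trans (by exact_mod_cast (by omega : T1 ≤ T))
  have hTpos : (1 : ℝ) ≤ T := by exact_mod_cast (by omega : 1 ≤ T)
  -- the grid
  obtain ⟨g, hg⟩ : ∃ g : ℕ → ℕ, ∀ i, g i = min ⌈q ^ i * T⌉₊ (2 * T) := ⟨fun i => _, fun i => rfl⟩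
  have hgT : ∀ i, T ≤ g i := by
    intro i
    rw [hg]
    apply le_min _ (by omega)
    have h1 : (1 : ℝ) ≤ q ^ i := one_le_pow₀ hq1.le
    have h2 : (T : ℝ) ≤ q ^ i * T := by nlinarith
    exact_mod_cast h2.trans (Nat.le_ceil _)
  have hg2 : ∀ i, g i ≤ 2 * T := by
    intro i
    rw [hg]
    exact min_le_right _ _
  have hgJ : g J = 2 * T := by
    rw [hg]
    apply min_eq_right
    have h2 : ((2 * T : ℕ) : ℝ) ≤ q ^ J * T := by
      push_cast
      nlinarith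
    exact_mod_cast h2.trans (Nat.le_ceil _)
  have hg0 : g 0 = T := by
    rw [hg]
    rw [pow_zero, one_mul, Nat.ceil_natCast]
    omega
  have hE : ∀ i, (((Ioc Z (Z + Y)).filter (fun n =>
      δ * (g i * V1 y) < |(Nl y (g i) n : ℝ) - g i * V1 y|)).card : ℝ) ≤ δ * Y := by
    intro i
    apply hl Z Y y (g i) hy hyY (by have := hgT i; omega)
    · calc (g i) ^ 5 ≤ (2 * T) ^ 5 := Nat.pow_le_pow_left (hg2 i) 5
        _ = 32 * T ^ 5 := by ring
        _ ≤ 1024 * Y := by omega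
    · refine hKT.trans (mul_le_mul_of_nonneg_right ?_ hV0)
      exact_mod_cast hgT i
  have hsub : (Ioc Z (Z + Y)).filter (fun n => BadL ε y T n) ⊆
      (range (J + 1)).biUnion (fun i => (Ioc Z (Z + Y)).filter (fun n =>
      δ * (g i * V1 y) < |(Nl y (g i) n : ℝ) - g i * V1 y|)) := by
    intro n hn
    rw [mem_filter] at hn
    obtain ⟨hn1, t, ht, hbad⟩ := hn
    rw [mem_Icc] at ht
    by_contra hcon
    rw [mem_biUnion] at hcon
    push Not at hcon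
    have hgood : ∀ i ≤ J, |(Nl y (g i) n : ℝ) - g i * V1 y| ≤ ε / 8 * (g i * V1 y) := by
      intro i hi
      have h1 := hcon i (mem_range.2 (by omega))
      rw [mem_filter] at h1
      push Not at h1
      refine (h1 hn1).trans (mul_le_mul_of_nonneg_right hδε (by positivity))
    -- the largest grid point below t
    rcases Nat.lt_or_ge t (2 * T) with hlt | hge
    · have hex : ∃ i, t < g i := ⟨J, by rw [hgJ]; exact hlt⟩
      obtain ⟨i, hi, hmin⟩ : ∃ i, t < g i ∧ ∀ j < i, g j ≤ t :=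
        ⟨Nat.find hex, Nat.find_spec hex, fun j hj => by
          have := Nat.find_min hex hj
          omega⟩
      have hi0 : i ≠ 0 := by
        rintro rfl
        rw [hg0] at hi
        omega
      obtain ⟨j, rfl⟩ := Nat.exists_eq_succ_of_ne_zero hi0
      have hj := hmin j (by omega)
      have hjJ : j < J := by
        by_contra hcc
        push Not at hcc
        have hJJ := hmin J (by omega)
        rw [hgJ] at hJJ
        omega
      have hub : (g (j + 1) : ℝ) ≤ q * (q ^ j * T) + 1 := by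
        have h1 : g (j + 1) ≤ ⌈q ^ (j + 1) * T⌉₊ := by rw [hg]; exact min_le_left _ _
        have h2 : ((⌈q ^ (j + 1) * T⌉₊ : ℕ) : ℝ) < q ^ (j + 1) * T + 1 :=
          Nat.ceil_lt_add_one (by positivity)
        have h3 : (g (j + 1) : ℝ) ≤ (⌈q ^ (j + 1) * T⌉₊ : ℕ) := by exact_mod_cast h1
        have h4 : q ^ (j + 1) * (T : ℝ) = q * (q ^ j * T) := by ring
        linarith
      have hlow : q ^ j * T ≤ g j := by
        have h1 : g j = ⌈q ^ j * T⌉₊ := by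
          rw [hg]
          apply min_eq_left
          by_contra hcc
          push Not at hcc
          have : g j = 2 * T := by rw [hg]; exact min_eq_right hcc.le
          omega
        rw [h1]
        exact Nat.le_ceil _
      have hjt : (g j : ℝ) ≤ t := by exact_mod_cast hj
      have hti : (t : ℝ) + 1 ≤ g (j + 1) := by exact_mod_cast hi
      have htT : (T : ℝ) ≤ t := by exact_mod_cast ht.1
      have hcl := close ε (V1 y) (g j) (g (j + 1)) t (Nl y (g j) n) (Nl y (g (j + 1)) n) (Nl y t n) hε hε1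
        (Nat.cast_nonneg _) hV0 hjt (by
          have h1 : q * (q ^ j * T) ≤ q * g j := mul_le_mul_of_nonneg_left hlow (by linarith)
          rw [hq] at h1
          rw [hq] at hub
          linarith) (by
          have h1 : q * (q ^ j * T) ≤ q * t := mul_le_mul_of_nonneg_left (hlow.trans hjt) (by linarith)
          have h2 : 1 ≤ ε / 16 * t := by
            rw [div_le_iff₀ hε] at hT1'
            nlinarith
          rw [hq] at h1 hub
          nlinarith)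
        (hgood j (by omega)) (hgood (j + 1) (by omega))
        (by exact_mod_cast Nl_mono y hj n) (by exact_mod_cast Nl_mono y hi.le n)
      linarith
    · have ht2 : t = 2 * T := by omega
      have h1 := hgood J le_rfl
      rw [hgJ, ← ht2] at h1
      have h2 : 0 ≤ (t : ℝ) * V1 y := by positivity
      nlinarith
  calc (((Ioc Z (Z + Y)).filter (fun n => BadL ε y T n)).card : ℝ)
      ≤ (((range (J + 1)).biUnion (fun i => (Ioc Z (Z + Y)).filter (fun n =>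
      δ * (g i * V1 y) < |(Nl y (g i) n : ℝ) - g i * V1 y|))).card : ℝ) := by
        exact_mod_cast card_le_card hsub
    _ ≤ ((∑ i ∈ range (J + 1), ((Ioc Z (Z + Y)).filter (fun n =>
      δ * (g i * V1 y) < |(Nl y (g i) n : ℝ) - g i * V1 y|)).card : ℕ) : ℝ) := by
        exact_mod_cast card_biUnion_le
    _ ≤ ∑ _i ∈ range (J + 1), δ * Y := by
        push_cast
        exact Finset.sum_le_sum (fun i _ => hE i)
    _ = (J + 1) * δ * Y := by
        rw [Finset.sum_const, card_range, nsmul_eq_mul]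
        push_cast
        ring
    _ ≤ ε * Y := mul_le_mul_of_nonneg_right hδJ (Nat.cast_nonneg _)


end Pool.Agent.R306.One
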