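import Pool.Agent.R306.One.Near
import Pool.Agent.R306.One.LinL
import Pool.Agent.Y810.SQ.Law2

/-!
The law of large numbers and the Poisson law for integers without small prime factors in short intervals, in
short dyadic windows.
-/

set_option autoImplicit false

namespace Pool.Agent.R306.One

open Finset Filter Topology
open Pool.Agent.Y862.SQ (pr V1 V1_nonneg V1_le_one)

/-- the sifting limit -/
noncomputable def yy (r j : ℕ) : ℕ := ⌊((2 ^ j : ℕ) : ℝ) ^ (1 / (r : ℝ))⌋₊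

lemma cast_two_pow (j : ℕ) : ((2 ^ j : ℕ) : ℝ) = (2:ℝ) ^ j := by push_cast; ring

lemma yy_tendsto {r : ℕ} (hr : 1 ≤ r) : Tendsto (yy r) atTop atTop := by
  have hr0 : (0:ℝ) < r := by exact_mod_cast (by omega : 0 < r)
  have h1 : Tendsto (fun j : ℕ => ((2 ^ j : ℕ) : ℝ)) atTop atTop := by
    simp only [cast_two_pow]
    exact tendsto_pow_atTop_atTop_of_one_lt one_lt_two
  exact tendsto_nat_floor_atTop.comp ((tendsto_rpow_atTop (by positivity)).comp h1)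

lemma yy_pow {r K0 : ℕ} (hr1 : 1 ≤ r) (hr : 2 * K0 ≤ r) (j : ℕ) :
    ((yy r j : ℕ) : ℝ) ^ K0 ≤ √((2:ℝ) ^ j) := by
  have hr0 : (0:ℝ) < r := by exact_mod_cast (by omega : 0 < r)
  have h2 : (1:ℝ) ≤ (2:ℝ) ^ j := one_le_pow₀ (by norm_num)
  calc ((yy r j : ℕ) : ℝ) ^ K0 ≤ (((2 ^ j : ℕ) : ℝ) ^ (1 / (r : ℝ))) ^ K0 :=
        pow_le_pow_left₀ (Nat.cast_nonneg _) (Nat.floor_le (by positivity)) K0
    _ = ((2:ℝ) ^ j) ^ (1 / (r : ℝ) * K0) := by
        rw [cast_two_pow, ← Real.rpow_natCast, ← Real.rpow_mul (by linarith)]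
    _ ≤ ((2:ℝ) ^ j) ^ (1 / 2 : ℝ) := by
        apply Real.rpow_le_rpow_of_exponent_le h2
        have h3 : (2 * K0 : ℝ) ≤ r := by exact_mod_cast hr
        rw [one_div, inv_mul_le_iff₀ hr0]
        linarith
    _ = √((2:ℝ) ^ j) := (Real.sqrt_eq_rpow _).symm

lemma vlow : ∃ c : ℝ, 0 < c ∧ ∀ r j : ℕ, 1 ≤ r → r ≤ j → c / j ≤ V1 (yy r j) := by
  obtain ⟨c, C, hc, hC, hV⟩ := Pool.Agent.Y810.SQ.V1_bounds
  refine ⟨c, hc, fun r j hr1 hjr => ?_⟩
  have hjpos : (0:ℝ) < j := by exact_mod_cast (by omega : 0 < j)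
  have hrpos : (0:ℝ) < r := by exact_mod_cast (by omega : 0 < r)
  have hpe : ((2 ^ j : ℕ) : ℝ) ^ (1 / (r : ℝ)) = (2:ℝ) ^ ((j : ℝ) / r) := by
    rw [cast_two_pow, ← Real.rpow_natCast, ← Real.rpow_mul (by norm_num)]
    congr 1
    ring
  have hp2 : (2:ℝ) ≤ ((2 ^ j : ℕ) : ℝ) ^ (1 / (r : ℝ)) := by
    rw [hpe]
    calc (2:ℝ) = (2:ℝ) ^ (1:ℝ) := (Real.rpow_one _).symm
      _ ≤ (2:ℝ) ^ ((j : ℝ) / r) := by
        apply Real.rpow_le_rpow_of_exponent_le (by norm_num)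
        rw [le_div_iff₀ hrpos, one_mul]
        exact_mod_cast hjr
  obtain ⟨y, hy⟩ : ∃ y : ℕ, y = yy r j := ⟨_, rfl⟩
  have hy2 : 2 ≤ y := by
    rw [hy]
    exact Nat.le_floor (by exact_mod_cast hp2)
  have hyle : (y : ℝ) ≤ (2:ℝ) ^ ((j : ℝ) / r) := by
    rw [hy, ← hpe]
    exact Nat.floor_le (by positivity)
  have hypos : (1:ℝ) < y := by exact_mod_cast (by omega : 1 < y)
  have hlogy : Real.log y ≤ j := by
    have h3 := Real.log_le_log (by linarith) hyle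
    rw [Real.log_rpow (by norm_num)] at h3
    have h4 : (j : ℝ) / r ≤ j := div_le_self hjpos.le (by exact_mod_cast hr1)
    have h5 : Real.log 2 ≤ 1 := by
      have := Real.log_two_lt_d9
      linarith
    have h6 : 0 ≤ Real.log 2 := Real.log_nonneg (by norm_num)
    calc Real.log y ≤ (j : ℝ) / r * Real.log 2 := h3
      _ ≤ (j : ℝ) * 1 := mul_le_mul h4 h5 h6 hjpos.le
      _ = j := mul_one _
  rw [← hy]
  refine le_trans ?_ (hV y hy2).1
  exact div_le_div_of_nonneg_left hc.le (Real.log_pos hypos) hlogy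

lemma v_tendsto {r : ℕ} (hr : 1 ≤ r) : Tendsto (fun j => V1 (yy r j)) atTop (𝓝 0) := by
  obtain ⟨c, C, hc, hC, hV⟩ := Pool.Agent.Y810.SQ.V1_bounds
  have h1 : Tendsto (fun j => C / Real.log ((yy r j : ℕ) : ℝ)) atTop (𝓝 0) :=
    tendsto_const_nhds.div_atTop (Real.tendsto_log_atTop.comp
      (tendsto_natCast_atTop_atTop.comp (yy_tendsto hr)))
  refine squeeze_zero' (Eventually.of_forall fun j => V1_nonneg _) ?_ h1
  filter_upwards [(yy_tendsto hr).eventually_ge_atTop 2] with j hj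
  exact (hV _ hj).2

lemma log_of_mem {j Z Y n : ℕ} (h1 : 2 ^ j ≤ Z + 1) (h2 : Z + Y < 2 ^ (j + 1)) (hn : n ∈ Ioc Z (Z + Y)) :
    Nat.log 2 n = j := by
  rw [mem_Ioc] at hn
  have h0 : 0 < 2 ^ j := by positivity
  rw [Nat.log_eq_iff (Or.inr ⟨by norm_num, by omega⟩)]
  omega

/-- **law of large numbers** -/
theorem lin_lln (ε : ℝ) (hε : 0 < ε) : ∃ (K : ℝ) (r0 : ℕ), ∀ L : ℕ → ℕ,
    (∀ᶠ j : ℕ in atTop, K * j ≤ L j ∧ (L j) ^ 10 ≤ 2 ^ j) → ∀ r, r0 ≤ r →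
      DyadicSmall (ε / 4) {m : ℕ | ∃ t, L (Nat.log 2 m) ≤ t ∧ t ≤ 2 * L (Nat.log 2 m) ∧
        ε * (t * V1 (yy r (Nat.log 2 m))) <
          |(Nl (yy r (Nat.log 2 m)) t m : ℝ) - t * V1 (yy r (Nat.log 2 m))|} := by
  classical
  obtain ⟨ε', hε'⟩ : ∃ ε' : ℝ, ε' = min (ε / 4) 1 := ⟨_, rfl⟩
  have hε'0 : 0 < ε' := by rw [hε']; positivity
  have hε'1 : ε' ≤ 1 := by rw [hε']; exact min_le_right _ _
  have hε'ε : ε' ≤ ε / 4 := by rw [hε']; exact min_le_left _ _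
  obtain ⟨K, K0, y0, T0, hK, hl⟩ := lln_unif t_MOML ε' hε'0 hε'1
  obtain ⟨c, hc, hV⟩ := vlow
  refine ⟨K / c, 2 * K0 + 1, fun L hL r hr => ?_⟩
  have hr1 : 1 ≤ r := by omega
  have hT0 : ∀ᶠ j : ℕ in atTop, (T0 : ℝ) ≤ K / c * j := by
    have h1 : Tendsto (fun j : ℕ => K / c * (j : ℝ)) atTop atTop :=
      tendsto_natCast_atTop_atTop.const_mul_atTop (by positivity)
    exact h1.eventually_ge_atTop _
  have hev := hL.and (hT0.and (((yy_tendsto hr1).eventually_ge_atTop y0).and (eventually_ge_atTop r)))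
  obtain ⟨j0, hj0⟩ := eventually_atTop.1 hev
  refine ⟨j0, fun j hj Z Y hY h1 h2 => ?_⟩
  obtain ⟨⟨g1, g2⟩, g3, g4, g5⟩ := hj0 j hj
  have hjpos : (0:ℝ) < j := by exact_mod_cast (by omega : 0 < j)
  have hKV : K ≤ L j * V1 (yy r j) := by
    calc K = (K / c * j) * (c / j) := by field_simp
      _ ≤ L j * V1 (yy r j) := mul_le_mul g1 (hV r j hr1 g5) (by positivity) (by positivity)
  have hyY : (yy r j) ^ K0 ≤ Y := by
    have := (yy_pow hr1 (by omega : 2 * K0 ≤ r) j).trans hY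
    exact_mod_cast this
  have hT0' : T0 ≤ L j := by exact_mod_cast g3.trans g1
  have hT5 : (L j) ^ 5 ≤ Y := by
    have h3 : ((L j : ℕ) : ℝ) ^ 5 ≤ √((2:ℝ) ^ j) := by
      apply Real.le_sqrt_of_sq_le
      rw [← pow_mul]
      exact_mod_cast g2
    exact_mod_cast h3.trans hY
  have hmain := hl Z Y (yy r j) (L j) g4 hyY hT0' hT5 hKV
  refine le_trans ?_ (hmain.trans (mul_le_mul_of_nonneg_right hε'ε (Nat.cast_nonneg _)))
  refine Nat.cast_le.2 (Finset.card_le_card ?_)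
  intro n hn
  rw [mem_filter] at hn ⊢
  refine ⟨hn.1, ?_⟩
  obtain ⟨t, ht1, ht2, ht3⟩ := hn.2
  rw [log_of_mem h1 h2 hn.1] at ht1 ht2 ht3
  refine ⟨t, mem_Icc.2 ⟨ht1, ht2⟩, lt_of_le_of_lt ?_ ht3⟩
  have h3 : 0 ≤ (t : ℝ) * V1 (yy r j) := mul_nonneg (Nat.cast_nonneg t) (V1_nonneg _)
  nlinarith

/-- Poisson probabilities -/
noncomputable def Po (x : ℝ) (A : Finset ℕ) : ℝ := ∑ k ∈ A, Real.exp (-x) * x ^ k / k.factorial

lemma Po_cont (A : Finset ℕ) : Continuous fun x => Po x A := by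
  unfold Po
  fun_prop

/-- the length -/
noncomputable def TT (x : ℝ) (r j : ℕ) : ℕ := ⌊x / V1 (yy r j)⌋₊

/-- the numbers with a prescribed number of sifted followers -/
def EP (x : ℝ) (r : ℕ) (A : Finset ℕ) : Set ℕ :=
  {m : ℕ | Nl (yy r (Nat.log 2 m)) (TT x r (Nat.log 2 m)) m ∈ A}

/-- **Poisson law** -/
theorem lin_pois (x ε : ℝ) (hx : 0 < x) (hε : 0 < ε) : ∃ r0 : ℕ, ∀ r, r0 ≤ r → ∀ A : Finset ℕ,
    DyadicSmall (Po x A + ε) (EP x r A) ∧ DyadicSmall (1 - Po x A + ε) (EP x r A)ᶜ := by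
  classical
  obtain ⟨K0, y0, T0, R0, h⟩ := pois x (ε / 2) hx.le (by positivity)
  obtain ⟨c, hc, hV⟩ := vlow
  refine ⟨2 * K0 + 1, fun r hr A => ?_⟩
  have hr1 : 1 ≤ r := by omega
  -- the length
  have hvt := v_tendsto hr1
  have hvpos : ∀ᶠ j : ℕ in atTop, 0 < V1 (yy r j) := by
    filter_upwards [eventually_ge_atTop r] with j hj
    have hjpos : (0:ℝ) < j := by exact_mod_cast (by omega : 0 < j)
    exact lt_of_lt_of_le (by positivity) (hV r j hr1 hj)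
  have hTt : Tendsto (fun j => TT x r j) atTop atTop := by
    apply tendsto_nat_floor_atTop.comp
    have h1 : Tendsto (fun j => V1 (yy r j)) atTop (𝓝[>] 0) :=
      tendsto_nhdsWithin_iff.2 ⟨hvt, hvpos⟩
    exact (tendsto_inv_nhdsGT_zero.comp h1).const_mul_atTop hx |>.congr fun j => by
      simp only [Function.comp]
      ring
  have hTV : Tendsto (fun j => (TT x r j : ℝ) * V1 (yy r j)) atTop (𝓝 x) := by
    have h1 : Tendsto (fun j => x - V1 (yy r j)) atTop (𝓝 x) := by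
      have := (tendsto_const_nhds (x := x)).sub hvt
      rwa [sub_zero] at this
    refine tendsto_of_tendsto_of_tendsto_of_le_of_le' h1 tendsto_const_nhds ?_ ?_
    · filter_upwards [hvpos] with j hj
      have h2 : x / V1 (yy r j) < TT x r j + 1 := Nat.lt_floor_add_one _
      rw [div_lt_iff₀ hj] at h2
      linarith
    · filter_upwards [hvpos] with j hj
      have h2 : (TT x r j : ℝ) ≤ x / V1 (yy r j) := Nat.floor_le (by positivity)
      rwa [le_div_iff₀ hj] at h2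
  have hPo : ∀ᶠ j : ℕ in atTop, |Po ((TT x r j : ℝ) * V1 (yy r j)) A - Po x A| < ε / 2 := by
    have h1 := ((Po_cont A).tendsto x).comp hTV
    have h2 := Metric.tendsto_nhds.1 h1 (ε / 2) (by positivity)
    filter_upwards [h2] with j hj
    rwa [Real.dist_eq] at hj
  have hTR : ∀ᶠ j : ℕ in atTop, ((TT x r j : ℕ) : ℝ) ^ R0 ≤ √((2:ℝ) ^ j) := by
    have h3 : Tendsto (fun j : ℕ => (j : ℝ) ^ (2 * R0) / 2 ^ j) atTop (𝓝 0) :=
      tendsto_pow_const_div_const_pow_of_one_lt (2 * R0) (by norm_num)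
    have h4 := (h3.const_mul ((x / c) ^ (2 * R0)))
    rw [mul_zero] at h4
    filter_upwards [h4.eventually_lt_const one_pos, hvpos, eventually_ge_atTop r] with j hj1 hj2 hj3
    have hjpos : (0:ℝ) < j := by exact_mod_cast (by omega : 0 < j)
    apply Real.le_sqrt_of_sq_le
    have h5 : (TT x r j : ℝ) ≤ x / c * j := by
      have h6 : (TT x r j : ℝ) ≤ x / V1 (yy r j) := Nat.floor_le (by positivity)
      refine h6.trans ?_
      have h7 := hV r j hr1 hj3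
      rw [div_le_iff₀ hj2]
      calc x = x / c * j * (c / j) := by field_simp
        _ ≤ x / c * j * V1 (yy r j) := mul_le_mul_of_nonneg_left h7 (by positivity)
    calc (((TT x r j : ℕ) : ℝ) ^ R0) ^ 2 = ((TT x r j : ℕ) : ℝ) ^ (2 * R0) := by
          rw [← pow_mul, mul_comm]
      _ ≤ (x / c * j) ^ (2 * R0) := pow_le_pow_left₀ (Nat.cast_nonneg _) h5 _
      _ = ((x / c) ^ (2 * R0) * ((j : ℝ) ^ (2 * R0) / 2 ^ j)) * 2 ^ j := by
          rw [mul_pow]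
          field_simp
      _ ≤ 1 * 2 ^ j := mul_le_mul_of_nonneg_right hj1.le (by positivity)
      _ = 2 ^ j := one_mul _
  have hev := hPo.and (hTR.and ((hTt.eventually_ge_atTop T0).and
    (((yy_tendsto hr1).eventually_ge_atTop y0).and hvpos)))
  obtain ⟨j0, hj0⟩ := eventually_atTop.1 hev
  -- both bounds
  have key : ∀ j, j0 ≤ j → ∀ Z Y : ℕ, √((2:ℝ) ^ j) ≤ Y → 2 ^ j ≤ Z + 1 → Z + Y < 2 ^ (j + 1) →
      |(((Ioc Z (Z + Y)).filter (fun n => n ∈ EP x r A)).card : ℝ) - Y * Po x A| ≤ ε * Y := by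
    intro j hj Z Y hY h1 h2
    obtain ⟨g1, g2, g3, g4, g5⟩ := hj0 j hj
    have hyY : (yy r j) ^ K0 ≤ Y := by
      have := (yy_pow hr1 (by omega : 2 * K0 ≤ r) j).trans hY
      exact_mod_cast this
    have hTRY : (TT x r j) ^ R0 ≤ Y := by exact_mod_cast g2.trans hY
    have hTVx : (TT x r j : ℝ) * V1 (yy r j) ≤ x := by
      have h3 : (TT x r j : ℝ) ≤ x / V1 (yy r j) := Nat.floor_le (by positivity)
      rwa [le_div_iff₀ g5] at h3
    have h3 := h Z Y (yy r j) (TT x r j) g4 hyY g3 hTRY hTVx A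
    have h4 : (Ioc Z (Z + Y)).filter (fun n => n ∈ EP x r A) =
        (Ioc Z (Z + Y)).filter (fun n => Nl (yy r j) (TT x r j) n ∈ A) := by
      apply Finset.filter_congr
      intro n hn
      unfold EP
      rw [Set.mem_ofPred_eq, log_of_mem h1 h2 hn]
    rw [h4]
    have h5 : |(Y : ℝ) * Po ((TT x r j : ℝ) * V1 (yy r j)) A - Y * Po x A| ≤ ε / 2 * Y := by
      rw [← mul_sub, abs_mul, Nat.abs_cast, mul_comm]
      exact mul_le_mul_of_nonneg_right g1.le (Nat.cast_nonneg _)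
    have h6 := abs_sub_le (((Ioc Z (Z + Y)).filter (fun n => Nl (yy r j) (TT x r j) n ∈ A)).card : ℝ)
      ((Y : ℝ) * Po ((TT x r j : ℝ) * V1 (yy r j)) A) (Y * Po x A)
    have h7 : |(((Ioc Z (Z + Y)).filter (fun n => Nl (yy r j) (TT x r j) n ∈ A)).card : ℝ) -
        (Y : ℝ) * Po ((TT x r j : ℝ) * V1 (yy r j)) A| ≤ ε / 2 * Y := h3
    linarith
  constructor
  · refine ⟨j0, fun j hj Z Y hY h1 h2 => ?_⟩
    have h3 := (abs_le.1 (key j hj Z Y hY h1 h2)).2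
    have h4 : (((Ioc Z (Z + Y)).filter (fun n => n ∈ EP x r A)).card : ℝ) ≤ (Po x A + ε) * Y := by
      linarith
    convert h4
  · refine ⟨j0, fun j hj Z Y hY h1 h2 => ?_⟩
    have h3 := (abs_le.1 (key j hj Z Y hY h1 h2)).1
    have h5 := Finset.card_filter_add_card_filter_not (s := Ioc Z (Z + Y)) (fun n => n ∈ EP x r A)
    rw [Nat.card_Ioc, Nat.add_sub_cancel_left] at h5
    have h6 : (((Ioc Z (Z + Y)).filter (fun n => n ∈ EP x r A)).card : ℝ) +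
        (((Ioc Z (Z + Y)).filter (fun n => ¬ n ∈ EP x r A)).card : ℝ) = Y := by exact_mod_cast h5
    have h4 : (((Ioc Z (Z + Y)).filter (fun n => ¬ n ∈ EP x r A)).card : ℝ) ≤
        (1 - Po x A + ε) * Y := by
      linarith
    convert h4

end Pool.Agent.R306.One
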