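import Pool.Agent.R306.One.Law

/-!
Sets of natural numbers with small relative density in short dyadic windows, along almost every sequence
`⌊b n * α ^ a n⌋`.
-/

set_option autoImplicit false

open MeasureTheory Filter Topology Set Real
open scoped ENNReal

namespace Pool.Agent.R306.One

open Pool.Agent.R306.LogCov Pool.Agent.R306.LogAE Pool.Agent.R306.LogLaw

/-- the indicator function of a set of natural numbers at the integer part -/
noncomputable def gE (E : Set ℕ) (r : ℝ) : ℝ := Set.indicator E (fun _ => (1:ℝ)) ⌊r⌋₊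

lemma gE_meas (E : Set ℕ) : Measurable (gE E) :=
  (measurable_of_countable (fun n : ℕ => Set.indicator E (fun _ => (1:ℝ)) n)).comp Nat.measurable_floor

lemma gE_nonneg (E : Set ℕ) (r : ℝ) : 0 ≤ gE E r := Set.indicator_nonneg (fun _ _ => zero_le_one) _

lemma gE_le (E : Set ℕ) (r : ℝ) : gE E r ≤ 1 := Set.indicator_le_self' (fun _ _ => zero_le_one) _

lemma gE_abs (E : Set ℕ) (r : ℝ) : |gE E r| ≤ 1 := by
  rw [abs_of_nonneg (gE_nonneg E r)]
  exact gE_le E r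

lemma gE_polyVar (E : Set ℕ) : PolyVar (gE E) := by
  refine ⟨1, le_rfl, fun T hT => ⟨fun r => (⌊r⌋₊ : ℝ), ?_, ?_, ?_⟩⟩
  · intro r _ r' _ h
    change (⌊r⌋₊ : ℝ) ≤ (⌊r'⌋₊ : ℝ)
    exact_mod_cast Nat.floor_mono h
  · have h1 : (⌊T⌋₊ : ℝ) ≤ T := Nat.floor_le (by linarith)
    change (⌊T⌋₊ : ℝ) - (⌊(1:ℝ)⌋₊ : ℝ) ≤ 1 * T ^ (1:ℝ)
    rw [Real.rpow_one, Nat.floor_one]
    push_cast
    linarith
  · intro r _ r' _ h
    have hm : ⌊r⌋₊ ≤ ⌊r'⌋₊ := Nat.floor_mono h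
    by_cases he : ⌊r⌋₊ = ⌊r'⌋₊
    · simp only [gE, he, sub_self, abs_zero, le_refl]
    · have h1 : ⌊r⌋₊ + 1 ≤ ⌊r'⌋₊ := lt_of_le_of_ne hm he
      have h2 : (⌊r⌋₊ : ℝ) + 1 ≤ ⌊r'⌋₊ := by exact_mod_cast h1
      have h3 := gE_nonneg E r
      have h4 := gE_nonneg E r'
      have h5 := gE_le E r
      have h6 := gE_le E r'
      rw [abs_le]
      constructor <;> linarith

open Classical in
/-- the integral is at most the number of integers -/
lemma gE_int (E : Set ℕ) {R H : ℝ} (hR : 0 ≤ R) (hH : 0 ≤ H) :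
    ∫ r in R..(R + H), gE E r ≤ (((Finset.Icc ⌊R⌋₊ ⌊R + H⌋₊).filter (fun n => n ∈ E)).card : ℝ) := by
  have hS : MeasurableSet {r : ℝ | ⌊r⌋₊ ∈ E} := Nat.measurable_floor (MeasurableSet.of_discrete)
  have e0 : gE E = {r : ℝ | ⌊r⌋₊ ∈ E}.indicator (1 : ℝ → ℝ) := by
    funext r
    rw [gE, Set.indicator_apply, Set.indicator_apply]
    rfl
  rw [intervalIntegral.integral_of_le (by linarith), e0, integral_indicator_one hS,
    measureReal_restrict_apply hS]
  set F := (Finset.Icc ⌊R⌋₊ ⌊R + H⌋₊).filter (fun n => n ∈ E) with hF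
  have hsub : {r : ℝ | ⌊r⌋₊ ∈ E} ∩ Ioc R (R + H) ⊆ ⋃ n ∈ F, Ico (n : ℝ) (n + 1) := by
    rintro r ⟨h1, h2⟩
    have hr0 : 0 ≤ r := by linarith [h2.1]
    simp only [mem_iUnion]
    refine ⟨⌊r⌋₊, ?_, Nat.floor_le hr0, Nat.lt_floor_add_one r⟩
    rw [hF, Finset.mem_filter, Finset.mem_Icc]
    exact ⟨⟨Nat.floor_mono h2.1.le, Nat.floor_mono h2.2⟩, h1⟩
  have hfin : volume (⋃ n ∈ F, Ico (n : ℝ) (n + 1)) ≠ ⊤ := by
    refine ne_top_of_le_ne_top ?_ (measure_biUnion_finset_le F _)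
    simp
  refine (measureReal_mono hsub hfin).trans ?_
  refine (measureReal_biUnion_finset_le F _).trans ?_
  simp

open Classical in
/-- relative density at most `ε` in short dyadic windows -/
def DyadicSmall (ε : ℝ) (E : Set ℕ) : Prop := ∃ j₀ : ℕ, ∀ j : ℕ, j₀ ≤ j → ∀ Z Y : ℕ,
  √((2:ℝ) ^ j) ≤ Y → 2 ^ j ≤ Z + 1 → Z + Y < 2 ^ (j + 1) →
    (((Finset.Ioc Z (Z + Y)).filter (fun n => n ∈ E)).card : ℝ) ≤ ε * Y

open Classical in
lemma piece {ε : ℝ} (hε : 0 ≤ ε) {E : Set ℕ} {j : ℕ} (h : ∀ Z Y : ℕ,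
    √((2:ℝ) ^ j) ≤ Y → 2 ^ j ≤ Z + 1 → Z + Y < 2 ^ (j + 1) →
    (((Finset.Ioc Z (Z + Y)).filter (fun n => n ∈ E)).card : ℝ) ≤ ε * Y) {Z Y : ℕ}
    (h1 : 2 ^ j ≤ Z + 1) (h2 : Z + Y < 2 ^ (j + 1)) :
    (((Finset.Ioc Z (Z + Y)).filter (fun n => n ∈ E)).card : ℝ) ≤ ε * Y + √((2:ℝ) ^ j) := by
  by_cases hY : √((2:ℝ) ^ j) ≤ Y
  · have := h Z Y hY h1 h2
    have h3 := Real.sqrt_nonneg ((2:ℝ) ^ j)
    linarith
  · have h3 : (((Finset.Ioc Z (Z + Y)).filter (fun n => n ∈ E)).card : ℝ) ≤ Y := by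
      have h4 := Finset.card_filter_le (Finset.Ioc Z (Z + Y)) (fun n => n ∈ E)
      rw [Nat.card_Ioc, Nat.add_sub_cancel_left] at h4
      exact_mod_cast h4
    push Not at hY
    have h5 : 0 ≤ ε * Y := by positivity
    linarith

open Classical in
lemma upMeans {ε : ℝ} (hε : 0 ≤ ε) {E : Set ℕ} (hE : DyadicSmall ε E) : UpMeans ε (gE E) := by
  obtain ⟨j₀, hj₀⟩ := hE
  intro η hη
  have hev : ∀ᶠ R : ℝ in atTop, (4 + ε) / η ≤ R ^ (1 / 4 : ℝ) ∧ (2:ℝ) ^ (j₀ + 1) ≤ R ∧ 1 ≤ R :=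
    ((tendsto_rpow_atTop (by norm_num)).eventually_ge_atTop _).and
      ((eventually_ge_atTop _).and (eventually_ge_atTop _))
  obtain ⟨R₀, hR₀⟩ := eventually_atTop.1 hev
  refine ⟨R₀, fun R hR H hH1 hH2 => ?_⟩
  obtain ⟨q1, q2, q3⟩ := hR₀ R hR
  have hR0 : 0 ≤ R := by linarith
  have hH0 : 0 ≤ H := le_trans (by positivity) hH1
  have hint := gE_int E hR0 hH0
  have hint0 : 0 ≤ ∫ r in R..(R + H), gE E r :=
    intervalIntegral.integral_nonneg (by linarith) (fun r _ => gE_nonneg E r)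
  rw [abs_of_nonneg hint0]
  refine hint.trans ?_
  set A := ⌊R⌋₊ with hA
  set D := ⌊R + H⌋₊ with hD
  have hAR : (A : ℝ) ≤ R := Nat.floor_le hR0
  have hRA : R < A + 1 := Nat.lt_floor_add_one R
  have hDR : (D : ℝ) ≤ R + H := Nat.floor_le (by linarith)
  have hAD : A ≤ D := Nat.floor_mono (by linarith)
  have hA1 : 1 ≤ A := Nat.le_floor (by simpa using q3)
  have hA2 : 2 ^ (j₀ + 1) ≤ A := Nat.le_floor (by push_cast; exact q2)
  set j := Nat.log 2 A with hj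
  have hjA : 2 ^ j ≤ A := Nat.pow_log_le_self 2 (by omega)
  have hAj : A < 2 ^ (j + 1) := Nat.lt_pow_succ_log_self (by norm_num) A
  have hjj : j₀ ≤ j := by
    have h1 : 2 ^ (j₀ + 1) < 2 ^ (j + 1) := lt_of_le_of_lt hA2 hAj
    have := (Nat.pow_lt_pow_iff_right (by norm_num : 1 < 2)).1 h1
    omega
  have hD4 : D < 2 ^ (j + 1 + 1) := by
    have h1 : A + 1 ≤ 2 ^ (j + 1) := hAj
    have h2 : (A : ℝ) + 1 ≤ 2 ^ (j + 1) := by exact_mod_cast h1
    have h3 : (D : ℝ) < 2 ^ (j + 1 + 1) := by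
      rw [pow_succ]
      linarith
    exact_mod_cast h3
  have hsj : √((2:ℝ) ^ j) ≤ √R := by
    apply Real.sqrt_le_sqrt
    have : (2:ℝ) ^ j ≤ A := by exact_mod_cast hjA
    linarith
  have hsj1 : √((2:ℝ) ^ (j + 1)) ≤ 2 * √R := by
    have h1 : √((2:ℝ) ^ (j + 1)) ≤ √(4 * R) := by
      apply Real.sqrt_le_sqrt
      have : (2:ℝ) ^ j ≤ A := by exact_mod_cast hjA
      rw [pow_succ]
      linarith
    have h2 : √(4 * R) = 2 * √R := by
      rw [Real.sqrt_mul (by norm_num), show (4:ℝ) = 2 ^ 2 by norm_num,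
        Real.sqrt_sq (by norm_num)]
    linarith
  -- the first integer
  have hfirst : ((((Finset.Icc A D).filter (fun n => n ∈ E)).card : ℕ) : ℝ) ≤
      1 + (((Finset.Ioc A D).filter (fun n => n ∈ E)).card : ℝ) := by
    have h1 : (Finset.Icc A D).filter (fun n => n ∈ E) ⊆
        insert A ((Finset.Ioc A D).filter (fun n => n ∈ E)) := by
      intro n hn
      rw [Finset.mem_filter, Finset.mem_Icc] at hn
      rw [Finset.mem_insert, Finset.mem_filter, Finset.mem_Ioc]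
      by_cases h : n = A
      · exact Or.inl h
      · exact Or.inr ⟨⟨by omega, hn.1.2⟩, hn.2⟩
    have h2 := (Finset.card_le_card h1).trans (Finset.card_insert_le _ _)
    have h3 : ((((Finset.Icc A D).filter (fun n => n ∈ E)).card : ℕ) : ℝ) ≤
        ((((Finset.Ioc A D).filter (fun n => n ∈ E)).card + 1 : ℕ) : ℝ) := by exact_mod_cast h2
    push_cast at h3
    linarith
  have hmain : (((Finset.Ioc A D).filter (fun n => n ∈ E)).card : ℝ) ≤ ε * (D - A) + 3 * √R := by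
    by_cases hc : D < 2 ^ (j + 1)
    · have h1 := piece hε (hj₀ j hjj) (Z := A) (Y := D - A) (by omega) (by omega)
      rw [Nat.add_sub_cancel' hAD, Nat.cast_sub hAD] at h1
      have := Real.sqrt_nonneg R
      linarith
    · push Not at hc
      have hAB : A ≤ 2 ^ (j + 1) - 1 := by omega
      have hBD : 2 ^ (j + 1) - 1 ≤ D := by omega
      obtain ⟨B, hB⟩ : ∃ B, B = 2 ^ (j + 1) - 1 := ⟨_, rfl⟩
      rw [← hB] at hAB hBD
      have hB1 : B + 1 = 2 ^ (j + 1) := by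
        have : 0 < 2 ^ (j + 1) := by positivity
        omega
      have h1 := piece hε (hj₀ j hjj) (Z := A) (Y := B - A) (by omega) (by omega)
      have h2 := piece hε (hj₀ (j + 1) (by omega)) (Z := B) (Y := D - B) (by omega) (by omega)
      rw [Nat.add_sub_cancel' hAB, Nat.cast_sub hAB] at h1
      rw [Nat.add_sub_cancel' hBD, Nat.cast_sub hBD] at h2
      have h3 : (Finset.Ioc A D).filter (fun n => n ∈ E) ⊆
          (Finset.Ioc A B).filter (fun n => n ∈ E) ∪ (Finset.Ioc B D).filter (fun n => n ∈ E) := by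
        intro n hn
        rw [Finset.mem_filter, Finset.mem_Ioc] at hn
        rw [Finset.mem_union, Finset.mem_filter, Finset.mem_filter, Finset.mem_Ioc, Finset.mem_Ioc]
        by_cases h : n ≤ B
        · exact Or.inl ⟨⟨hn.1.1, h⟩, hn.2⟩
        · exact Or.inr ⟨⟨by omega, hn.1.2⟩, hn.2⟩
      have h4 := (Finset.card_le_card h3).trans (Finset.card_union_le _ _)
      have h5 : (((Finset.Ioc A D).filter (fun n => n ∈ E)).card : ℝ) ≤
          (((Finset.Ioc A B).filter (fun n => n ∈ E)).card : ℝ) +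
          (((Finset.Ioc B D).filter (fun n => n ∈ E)).card : ℝ) := by exact_mod_cast h4
      nlinarith
  have hsR1 : 1 ≤ √R := Real.one_le_sqrt.2 q3
  have hRe : R ^ (3 / 4 : ℝ) = R ^ (1 / 4 : ℝ) * √R := by
    rw [Real.sqrt_eq_rpow, ← Real.rpow_add (by linarith)]
    norm_num
  have hfin : (4 + ε) * √R ≤ η * H := by
    rw [div_le_iff₀ hη] at q1
    calc (4 + ε) * √R ≤ (R ^ (1 / 4 : ℝ) * η) * √R := mul_le_mul_of_nonneg_right q1 (by positivity)
      _ = η * R ^ (3 / 4 : ℝ) := by rw [hRe]; ring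
      _ ≤ η * H := mul_le_mul_of_nonneg_left hH1 hη.le
  have h6 : ε * (D - A) ≤ ε * (H + 1) := mul_le_mul_of_nonneg_left (by linarith) hε
  have h7 : ε ≤ ε * √R := le_mul_of_one_le_right hε hsR1
  nlinarith

/-- weights -/
noncomputable def wt (a b : ℕ → ℝ) (n : ℕ) : ℝ :=
  Real.log (a (n + 1) + Real.log (b (n + 1))) - Real.log (a n + Real.log (b n))

lemma exp_pt {a b : ℕ → ℝ} (hb : ∀ n, 0 < b n) {α : ℝ} (hα : 0 < α) (n : ℕ) :
    Real.exp (a n * Real.log α + Real.log (b n)) = b n * α ^ (a n) := by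
  rw [Real.exp_add, Real.exp_log (hb n), Real.rpow_def_of_pos hα, mul_comm (b n),
    mul_comm (Real.log α)]

open Classical in
/-- **almost all sequences** -/
theorem ae_nat {E : Set ℕ} {ε : ℝ} (hε : 0 ≤ ε) (hE : DyadicSmall ε E) {a b : ℕ → ℝ}
    (ha : ∀ n, 1 ≤ a n) (hb : ∀ n, 1 ≤ b n) (hmono : Monotone fun n => a n + Real.log (b n))
    (hinf : Tendsto (fun n => a n + Real.log (b n)) atTop atTop)
    (hC : ∃ C : ℝ, ∀ n, a (n + 1) + Real.log (b (n + 1)) ≤ C * (a n + Real.log (b n))) :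
    ∀ᵐ α : ℝ, 1 < α → ∀ η : ℝ, 0 < η → ∀ᶠ N in atTop,
      ∑ n ∈ Finset.range N, (if ⌊b n * α ^ (a n)⌋₊ ∈ E then wt a b n else 0) ≤
        (2 * ε + η) * ∑ n ∈ Finset.range N, wt a b n := by
  obtain ⟨C, hC⟩ := hC
  have hb0 : ∀ n, 0 < b n := fun n => lt_of_lt_of_le one_pos (hb n)
  have hlb : ∀ n, 0 ≤ Real.log (b n) := fun n => Real.log_nonneg (hb n)
  have key : ∀ j : ℕ, ∀ᵐ y : ℝ, y ∈ Ioc (1 / ((j : ℝ) + 1)) ((j : ℝ) + 1) → ∀ η : ℝ, 0 < η →
      ∀ᶠ N in atTop, |∑ n ∈ Finset.range N, (Real.log (a (n + 1) + Real.log (b (n + 1))) -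
        Real.log (a n + Real.log (b n))) * Xf (gE E) (a n) (Real.log (b n)) y| ≤
        (2 * ε + η) * ∑ n ∈ Finset.range N, (Real.log (a (n + 1) + Real.log (b (n + 1))) -
        Real.log (a n + Real.log (b n))) := by
    intro j
    exact ae_one (gE_meas E) (gE_abs E) hε (upMeans hε hE) (gE_polyVar E) ha hlb hmono hinf hC
      (u := 1 / ((j : ℝ) + 1)) (v := (j : ℝ) + 1) (by positivity) (by
          rw [div_le_iff₀ (by positivity)]
          nlinarith [Nat.cast_nonneg (α := ℝ) j])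
  have key2 := ae_all_iff.2 key
  rw [ae_iff] at key2
  have h3 := MeasureTheory.addHaar_image_eq_zero_of_differentiableOn_of_addHaar_eq_zero
    (volume : Measure ℝ) (f := Real.exp) Real.differentiable_exp.differentiableOn key2
  rw [ae_iff]
  refine measure_mono_null ?_ h3
  intro α hα
  have hα' : ¬ (1 < α → ∀ η : ℝ, 0 < η → ∀ᶠ N in atTop,
      ∑ n ∈ Finset.range N, (if ⌊b n * α ^ (a n)⌋₊ ∈ E then wt a b n else 0) ≤
        (2 * ε + η) * ∑ n ∈ Finset.range N, wt a b n) := hα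
  rw [Classical.not_imp] at hα'
  obtain ⟨hα1, hα2⟩ := hα'
  have hα0 : 0 < α := by linarith
  refine ⟨Real.log α, ?_, Real.exp_log hα0⟩
  change ¬ _
  intro hall
  apply hα2
  intro η hη
  have hl : 0 < Real.log α := Real.log_pos hα1
  obtain ⟨j, hj⟩ := exists_nat_gt (max (1 / Real.log α) (Real.log α))
  have hj1 : 1 / Real.log α < j := (le_max_left _ _).trans_lt hj
  have hj2 : Real.log α < j := (le_max_right _ _).trans_lt hj
  have h4 := hall j ⟨by
    rw [div_lt_iff₀ hl] at hj1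
    rw [div_lt_iff₀ (by positivity)]
    nlinarith, by linarith⟩ η hη
  filter_upwards [h4] with N hN
  refine le_trans ?_ ((le_abs_self _).trans hN)
  refine le_of_eq (Finset.sum_congr rfl fun n _ => ?_)
  unfold Xf wt gE
  rw [exp_pt hb0 hα0, Set.indicator_apply]
  split_ifs <;> simp

end Pool.Agent.R306.One
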