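import Pool.Agent.R306.One.Nat

/-!
Sets of natural numbers with relative density close to `p` in short dyadic windows, along almost every
sequence `⌊b n * α ^ a n⌋`.
-/

set_option autoImplicit false

open MeasureTheory Filter Topology Set Real
open scoped ENNReal

namespace Pool.Agent.R306.One

open Pool.Agent.R306.LogCov Pool.Agent.R306.LogAE Pool.Agent.R306.LogLaw

/-- **almost all sequences**, general functions -/
theorem ae_gen {g : ℝ → ℝ} (hg : Measurable g) {B : ℝ} (hB : ∀ r, |g r| ≤ B) {c : ℝ} (hc : 0 ≤ c)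
    (hW : UpMeans c g) (hL : PolyVar g) {a b : ℕ → ℝ}
    (ha : ∀ n, 1 ≤ a n) (hb : ∀ n, 1 ≤ b n) (hmono : Monotone fun n => a n + Real.log (b n))
    (hinf : Tendsto (fun n => a n + Real.log (b n)) atTop atTop)
    (hC : ∃ C : ℝ, ∀ n, a (n + 1) + Real.log (b (n + 1)) ≤ C * (a n + Real.log (b n))) :
    ∀ᵐ α : ℝ, 1 < α → ∀ η : ℝ, 0 < η → ∀ᶠ N in atTop,
      |∑ n ∈ Finset.range N, wt a b n * g (b n * α ^ (a n))| ≤
        (2 * c + η) * ∑ n ∈ Finset.range N, wt a b n := by
  obtain ⟨C, hC⟩ := hC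
  have hb0 : ∀ n, 0 < b n := fun n => lt_of_lt_of_le one_pos (hb n)
  have hlb : ∀ n, 0 ≤ Real.log (b n) := fun n => Real.log_nonneg (hb n)
  have key : ∀ j : ℕ, ∀ᵐ y : ℝ, y ∈ Ioc (1 / ((j : ℝ) + 1)) ((j : ℝ) + 1) → ∀ η : ℝ, 0 < η →
      ∀ᶠ N in atTop, |∑ n ∈ Finset.range N, (Real.log (a (n + 1) + Real.log (b (n + 1))) -
        Real.log (a n + Real.log (b n))) * Xf g (a n) (Real.log (b n)) y| ≤
        (2 * c + η) * ∑ n ∈ Finset.range N, (Real.log (a (n + 1) + Real.log (b (n + 1))) -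
        Real.log (a n + Real.log (b n))) := by
    intro j
    exact ae_one hg hB hc hW hL ha hlb hmono hinf hC
      (u := 1 / ((j : ℝ) + 1)) (v := (j : ℝ) + 1) (by positivity) (by
          rw [div_le_iff₀ (by positivity)]
          nlinarith [Nat.cast_nonneg (α := ℝ) j])
  have key2 := ae_all_iff.2 key
  rw [ae_iff] at key2
  have h3 := MeasureTheory.addHaar_image_eq_zero_of_differentiableOn_of_addHaar_eq_zero
    (volume : Measure ℝ) (f := Real.exp) Real.differentiable_exp.differentiableOn key2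
  rw [ae_iff]
  refine measure_mono_null ?_ h3
  intro α hα
  have hα' : ¬ (1 < α → ∀ η : ℝ, 0 < η → ∀ᶠ N in atTop,
      |∑ n ∈ Finset.range N, wt a b n * g (b n * α ^ (a n))| ≤
        (2 * c + η) * ∑ n ∈ Finset.range N, wt a b n) := hα
  rw [Classical.not_imp] at hα'
  obtain ⟨hα1, hα2⟩ := hα'
  have hα0 : 0 < α := by linarith
  refine ⟨Real.log α, ?_, Real.exp_log hα0⟩
  change ¬ _
  intro hall
  apply hα2
  intro η hη
  have hl : 0 < Real.log α := Real.log_pos hα1
  obtain ⟨j, hj⟩ := exists_nat_gt (max (1 / Real.log α) (Real.log α))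
  have hj1 : 1 / Real.log α < j := (le_max_left _ _).trans_lt hj
  have hj2 : Real.log α < j := (le_max_right _ _).trans_lt hj
  have h4 := hall j ⟨by
    rw [div_lt_iff₀ hl] at hj1
    rw [div_lt_iff₀ (by positivity)]
    nlinarith, by linarith⟩ η hη
  filter_upwards [h4] with N hN
  refine le_trans (le_of_eq ?_) hN
  congr 1
  refine Finset.sum_congr rfl fun n _ => ?_
  unfold Xf wt
  rw [exp_pt hb0 hα0]

lemma gE_compl (E : Set ℕ) (r : ℝ) : gE Eᶜ r = 1 - gE E r := by
  unfold gE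
  by_cases h : ⌊r⌋₊ ∈ E
  · rw [Set.indicator_of_mem h, Set.indicator_of_notMem (by simpa using h)]
    ring
  · rw [Set.indicator_of_notMem h, Set.indicator_of_mem (by simpa using h)]
    ring

lemma gE_intble (E : Set ℕ) (x y : ℝ) : IntervalIntegrable (gE E) volume x y := by
  refine ⟨?_, ?_⟩ <;>
  · refine Measure.integrableOn_of_bounded (M := 1) (by simp) (gE_meas E).aestronglyMeasurable ?_
    exact Eventually.of_forall fun r => by
      rw [Real.norm_eq_abs]
      exact gE_abs E r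

lemma upMeans_near {p ε : ℝ} (h1 : 0 ≤ p + ε) (h2 : 0 ≤ 1 - p + ε) {E : Set ℕ}
    (hE : DyadicSmall (p + ε) E) (hE' : DyadicSmall (1 - p + ε) Eᶜ) :
    UpMeans ε (fun r => gE E r - p) := by
  intro η hη
  obtain ⟨R1, hR1⟩ := upMeans h1 hE η hη
  obtain ⟨R2, hR2⟩ := upMeans h2 hE' η hη
  refine ⟨max R1 R2, fun R hR H hH1 hH2 => ?_⟩
  have a1 := hR1 R ((le_max_left _ _).trans hR) H hH1 hH2
  have a2 := hR2 R ((le_max_right _ _).trans hR) H hH1 hH2
  have e2 : ∫ r in R..(R + H), gE Eᶜ r = H - ∫ r in R..(R + H), gE E r := by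
    simp only [gE_compl]
    rw [intervalIntegral.integral_sub (by simp) (gE_intble E _ _), intervalIntegral.integral_const,
      add_sub_cancel_left, smul_eq_mul, mul_one]
  rw [e2] at a2
  rw [intervalIntegral.integral_sub (gE_intble E _ _) (by simp), intervalIntegral.integral_const,
    add_sub_cancel_left, smul_eq_mul]
  have b1 := (abs_le.1 a1).2
  have b2 := (abs_le.1 a2).2
  rw [abs_le]
  constructor <;> linarith

lemma polyVar_sub {g : ℝ → ℝ} (h : PolyVar g) (p : ℝ) : PolyVar (fun r => g r - p) := by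
  obtain ⟨C, hC, h⟩ := h
  refine ⟨C, hC, fun T hT => ?_⟩
  obtain ⟨Φ, h1, h2, h3⟩ := h T hT
  refine ⟨Φ, h1, h2, fun r hr r' hr' hrr => ?_⟩
  have e : g r' - p - (g r - p) = g r' - g r := by ring
  rw [e]
  exact h3 r hr r' hr' hrr

open Classical in
/-- **almost all sequences**, frequencies -/
theorem ae_near {E : Set ℕ} {p ε : ℝ} (hε : 0 ≤ ε) (hp0 : 0 ≤ p) (hp1 : p ≤ 1)
    (hE : DyadicSmall (p + ε) E) (hE' : DyadicSmall (1 - p + ε) Eᶜ) {a b : ℕ → ℝ}
    (ha : ∀ n, 1 ≤ a n) (hb : ∀ n, 1 ≤ b n) (hmono : Monotone fun n => a n + Real.log (b n))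
    (hinf : Tendsto (fun n => a n + Real.log (b n)) atTop atTop)
    (hC : ∃ C : ℝ, ∀ n, a (n + 1) + Real.log (b (n + 1)) ≤ C * (a n + Real.log (b n))) :
    ∀ᵐ α : ℝ, 1 < α → ∀ η : ℝ, 0 < η → ∀ᶠ N in atTop,
      |(∑ n ∈ Finset.range N, if ⌊b n * α ^ (a n)⌋₊ ∈ E then wt a b n else 0) -
        p * ∑ n ∈ Finset.range N, wt a b n| ≤ (2 * ε + η) * ∑ n ∈ Finset.range N, wt a b n := by
  have h := ae_gen (g := fun r => gE E r - p) ((gE_meas E).sub_const p) (B := 1) (fun r => by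
      have h1 := gE_nonneg E r
      have h2 := gE_le E r
      rw [abs_le]
      constructor <;> linarith) hε
    (upMeans_near (by linarith) (by linarith) hE hE') (polyVar_sub (gE_polyVar E) p) ha hb hmono hinf hC
  filter_upwards [h] with α hα hα1 η hη
  filter_upwards [hα hα1 η hη] with N hN
  refine le_trans (le_of_eq ?_) hN
  congr 1
  rw [Finset.mul_sum, ← Finset.sum_sub_distrib]
  refine Finset.sum_congr rfl fun n _ => ?_
  unfold gE
  rw [Set.indicator_apply]
  split_ifs <;> ring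

end Pool.Agent.R306.One
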