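import Pool.Agent.Helper923.PNT

/-!
The size of the `n`-th prime (after helper 528).
-/

set_option autoImplicit false

namespace Pool.Agent.R306.One

open Filter Topology

/-- the `n`-th prime, `n ≥ 1` -/
noncomputable def nthP (n : ℕ) : ℕ := Nat.nth Nat.Prime (n - 1)

lemma pnt_nat : Tendsto (fun n : ℕ => (Nat.primeCounting n : ℝ) * Real.log n / n) atTop (𝓝 1) := by
  have h := Pool.Agent.Helper923.PNT.pi_tendsto.comp (tendsto_natCast_atTop_atTop (R := ℝ))
  refine h.congr fun n => ?_
  simp only [Function.comp, Nat.floor_natCast]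

lemma nth_prime_asymp : Tendsto (fun j : ℕ => (nthP j : ℝ) / (j * Real.log j)) atTop (𝓝 1) := by
  unfold nthP
  set P : ℕ → ℕ := fun j => Nat.nth Nat.Prime (j - 1) with hP
  have hPt : Tendsto P atTop atTop := by
    have h1 : Tendsto (Nat.nth Nat.Prime) atTop atTop :=
      (Nat.nth_strictMono Nat.infinite_setOfPred_prime).tendsto_atTop
    exact h1.comp (tendsto_sub_atTop_nat 1)
  have hcount : ∀ᶠ j : ℕ in atTop, Nat.primeCounting (P j) = j := by
    filter_upwards [eventually_gt_atTop 0] with j hj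
    have h1 : Nat.primeCounting' (Nat.nth Nat.Prime (j - 1) + 1) = (j - 1) + 1 := by
      rw [Nat.primeCounting']
      exact Nat.count_nth_succ_of_infinite Nat.infinite_setOfPred_prime (j - 1)
    have h2 : Nat.primeCounting (P j) = Nat.primeCounting' (P j + 1) := rfl
    rw [h2, h1]
    omega
  have h1 : Tendsto (fun j : ℕ => (j : ℝ) * Real.log (P j) / P j) atTop (𝓝 1) := by
    refine (pnt_nat.comp hPt).congr' ?_
    filter_upwards [hcount] with j hj
    show (Nat.primeCounting (P j) : ℝ) * Real.log (P j) / (P j) = _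
    rw [hj]
  have hPr : Tendsto (fun j : ℕ => (P j : ℝ)) atTop atTop := tendsto_natCast_atTop_atTop.comp hPt
  have hlP : Tendsto (fun j : ℕ => Real.log (P j : ℝ)) atTop atTop := Real.tendsto_log_atTop.comp hPr
  -- the quotient of the logarithms
  have h2 : Tendsto (fun j : ℕ => Real.log j / Real.log (P j)) atTop (𝓝 1) := by
    have e1 := (Real.continuousAt_log (one_ne_zero)).tendsto.comp h1
    rw [Real.log_one] at e1
    have e2 : Tendsto (fun j : ℕ => Real.log (Real.log (P j)) / Real.log (P j)) atTop (𝓝 0) :=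
      (Real.isLittleO_log_id_atTop.tendsto_div_nhds_zero).comp hlP
    have e3 := (e1.div_atTop hlP).sub e2 |>.const_add 1
    rw [sub_zero, add_zero] at e3
    refine e3.congr' ?_
    filter_upwards [hlP.eventually_gt_atTop 0, eventually_gt_atTop 0, hPt.eventually_gt_atTop 0] with j g1 g2 g3
    have hj : (0 : ℝ) < j := by exact_mod_cast g2
    have hp : (0 : ℝ) < P j := by exact_mod_cast g3
    simp only [Function.comp]
    rw [Real.log_div (by positivity) hp.ne', Real.log_mul hj.ne' g1.ne']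
    have := g1.ne'
    field_simp
    ring
  have h3 := (h2.mul h1).inv₀ (by norm_num)
  rw [one_mul, inv_one] at h3
  refine h3.congr' ?_
  filter_upwards [hlP.eventually_gt_atTop 0, eventually_gt_atTop 1, hPt.eventually_gt_atTop 0] with j g1 g2 g3
  have hj : (0 : ℝ) < j := by exact_mod_cast (by omega : 0 < j)
  have hp : (0 : ℝ) < P j := by exact_mod_cast g3
  have hlj : 0 < Real.log (j : ℝ) := Real.log_pos (by exact_mod_cast g2)
  have := g1.ne'
  show (Real.log j / Real.log (P j) * ((j : ℝ) * Real.log (P j) / P j))⁻¹ = (P j : ℝ) / (j * Real.log j)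
  field_simp

lemma nthP_low (K : ℝ) : ∀ᶠ j : ℕ in atTop, K * j ≤ nthP j := by
  have h1 := nth_prime_asymp.eventually_const_lt (show (1 / 2 : ℝ) < 1 by norm_num)
  have h2 : ∀ᶠ j : ℕ in atTop, 2 * K ≤ Real.log j :=
    (Real.tendsto_log_atTop.comp tendsto_natCast_atTop_atTop).eventually_ge_atTop _
  filter_upwards [h1, h2, eventually_ge_atTop 3] with j g1 g2 g3
  have hj : (0 : ℝ) < j := by exact_mod_cast (by omega : 0 < j)
  have hlj : 0 < Real.log (j : ℝ) := Real.log_pos (by exact_mod_cast (by omega : 1 < j))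
  rw [lt_div_iff₀ (by positivity)] at g1
  nlinarith

lemma nthP_up : ∀ᶠ j : ℕ in atTop, (nthP j) ^ 10 ≤ 2 ^ j := by
  have h1 := nth_prime_asymp.eventually_lt_const (show (1 : ℝ) < 2 by norm_num)
  have h3 : Tendsto (fun j : ℕ => (j : ℝ) ^ 20 / 2 ^ j) atTop (𝓝 0) :=
    tendsto_pow_const_div_const_pow_of_one_lt 20 (by norm_num)
  have h4 := h3.const_mul (1024 : ℝ)
  rw [mul_zero] at h4
  filter_upwards [h1, h4.eventually_lt_const one_pos, eventually_ge_atTop 3] with j g1 g2 g3
  have hj : (0 : ℝ) < j := by exact_mod_cast (by omega : 0 < j)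
  have hlj : 0 < Real.log (j : ℝ) := Real.log_pos (by exact_mod_cast (by omega : 1 < j))
  rw [div_lt_iff₀ (by positivity)] at g1
  have h5 : Real.log (j : ℝ) ≤ j := (Real.log_le_sub_one_of_pos hj).trans (by linarith)
  have h6 : (nthP j : ℝ) ≤ 2 * (j : ℝ) ^ 2 := by nlinarith
  have h7 : (nthP j : ℝ) ^ 10 ≤ (2:ℝ) ^ j := by
    calc (nthP j : ℝ) ^ 10 ≤ (2 * (j : ℝ) ^ 2) ^ 10 := pow_le_pow_left₀ (Nat.cast_nonneg _) h6 10
      _ = (1024 * ((j : ℝ) ^ 20 / 2 ^ j)) * 2 ^ j := by field_simp; ring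
      _ ≤ 1 * 2 ^ j := mul_le_mul_of_nonneg_right g2.le (by positivity)
      _ = 2 ^ j := one_mul _
  exact_mod_cast h7

end Pool.Agent.R306.One
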