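import Pool.Agent.R306.One.LinD
import Pool.Agent.Y862.SQ.Main1

/-!
The Poisson law for the integers without small prime factors just above squares, in short dyadic windows.
-/

set_option autoImplicit false

namespace Pool.Agent.R306.One

open Finset Filter Topology
open Pool.Agent.Y862.SQ (pr V1 V1_nonneg V1_le_one Ns)

/-- the numbers with a prescribed number of sifted integers just above the square -/
def ES (x : ℝ) (r : ℕ) (A : Finset ℕ) : Set ℕ :=
  {m : ℕ | Ns (yy r (Nat.log 2 m)) (TT x r (Nat.log 2 m)) m ∈ A}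

lemma tt_len (x : ℝ) (hx : 0 < x) {r : ℕ} (hr1 : 1 ≤ r) : ∀ᶠ j : ℕ in atTop, TT x r j ≤ 2 ^ j := by
  obtain ⟨c, hc, hV⟩ := vlow
  have h3 : Tendsto (fun j : ℕ => (j : ℝ) ^ 1 / 2 ^ j) atTop (𝓝 0) :=
    tendsto_pow_const_div_const_pow_of_one_lt 1 (by norm_num)
  have h4 := (h3.const_mul (x / c))
  rw [mul_zero] at h4
  filter_upwards [h4.eventually_lt_const one_pos, eventually_ge_atTop r] with j hj1 hj2
  have hjpos : (0:ℝ) < j := by exact_mod_cast (by omega : 0 < j)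
  have h7 := hV r j hr1 hj2
  have hvp : 0 < V1 (yy r j) := lt_of_lt_of_le (by positivity) h7
  have h6 : (TT x r j : ℝ) ≤ x / V1 (yy r j) := Nat.floor_le (by positivity)
  have h8 : x / V1 (yy r j) ≤ x / c * j := by
    rw [div_le_iff₀ hvp]
    calc x = x / c * j * (c / j) := by field_simp
      _ ≤ x / c * j * V1 (yy r j) := mul_le_mul_of_nonneg_left h7 (by positivity)
  have h9 : x / c * (j : ℝ) ≤ 2 ^ j := by
    rw [pow_one, ← mul_div_assoc, div_lt_one (by positivity)] at hj1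
    exact hj1.le
  have h10 : (TT x r j : ℝ) ≤ ((2 ^ j : ℕ) : ℝ) := by
    rw [cast_two_pow]
    linarith
  exact_mod_cast h10

/-- **Poisson law** -/
theorem sq_pois (x ε : ℝ) (hx : 0 < x) (hε : 0 < ε) : ∃ r0 : ℕ, ∀ r, r0 ≤ r → ∀ A : Finset ℕ,
    DyadicSmall (Po x A + ε) (ES x r A) ∧ DyadicSmall (1 - Po x A + ε) (ES x r A)ᶜ := by
  classical
  obtain ⟨K0, y0, T0, R0, h⟩ := Pool.Agent.Y486.SQ.t_LAW Pool.Agent.Y862.SQ.t_AVG x (ε / 2) hx.le (by positivity)
  obtain ⟨c, hc, hV⟩ := vlow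
  refine ⟨2 * K0 + 1, fun r hr A => ?_⟩
  have hr1 : 1 ≤ r := by omega
  -- the length
  have hvt := v_tendsto hr1
  have hvpos : ∀ᶠ j : ℕ in atTop, 0 < V1 (yy r j) := by
    filter_upwards [eventually_ge_atTop r] with j hj
    have hjpos : (0:ℝ) < j := by exact_mod_cast (by omega : 0 < j)
    exact lt_of_lt_of_le (by positivity) (hV r j hr1 hj)
  have hTt : Tendsto (fun j => TT x r j) atTop atTop := by
    apply tendsto_nat_floor_atTop.comp
    have h1 : Tendsto (fun j => V1 (yy r j)) atTop (𝓝[>] 0) :=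
      tendsto_nhdsWithin_iff.2 ⟨hvt, hvpos⟩
    exact (tendsto_inv_nhdsGT_zero.comp h1).const_mul_atTop hx |>.congr fun j => by
      simp only [Function.comp]
      ring
  have hTV : Tendsto (fun j => (TT x r j : ℝ) * V1 (yy r j)) atTop (𝓝 x) := by
    have h1 : Tendsto (fun j => x - V1 (yy r j)) atTop (𝓝 x) := by
      have := (tendsto_const_nhds (x := x)).sub hvt
      rwa [sub_zero] at this
    refine tendsto_of_tendsto_of_tendsto_of_le_of_le' h1 tendsto_const_nhds ?_ ?_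
    · filter_upwards [hvpos] with j hj
      have h2 : x / V1 (yy r j) < TT x r j + 1 := Nat.lt_floor_add_one _
      rw [div_lt_iff₀ hj] at h2
      linarith
    · filter_upwards [hvpos] with j hj
      have h2 : (TT x r j : ℝ) ≤ x / V1 (yy r j) := Nat.floor_le (by positivity)
      rwa [le_div_iff₀ hj] at h2
  have hPo : ∀ᶠ j : ℕ in atTop, |Po ((TT x r j : ℝ) * V1 (yy r j)) A - Po x A| < ε / 2 := by
    have h1 := ((Po_cont A).tendsto x).comp hTV
    have h2 := Metric.tendsto_nhds.1 h1 (ε / 2) (by positivity)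
    filter_upwards [h2] with j hj
    rwa [Real.dist_eq] at hj
  have hTR : ∀ᶠ j : ℕ in atTop, ((TT x r j : ℕ) : ℝ) ^ R0 ≤ √((2:ℝ) ^ j) := by
    have h3 : Tendsto (fun j : ℕ => (j : ℝ) ^ (2 * R0) / 2 ^ j) atTop (𝓝 0) :=
      tendsto_pow_const_div_const_pow_of_one_lt (2 * R0) (by norm_num)
    have h4 := (h3.const_mul ((x / c) ^ (2 * R0)))
    rw [mul_zero] at h4
    filter_upwards [h4.eventually_lt_const one_pos, hvpos, eventually_ge_atTop r] with j hj1 hj2 hj3
    have hjpos : (0:ℝ) < j := by exact_mod_cast (by omega : 0 < j)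
    apply Real.le_sqrt_of_sq_le
    have h5 : (TT x r j : ℝ) ≤ x / c * j := by
      have h6 : (TT x r j : ℝ) ≤ x / V1 (yy r j) := Nat.floor_le (by positivity)
      refine h6.trans ?_
      have h7 := hV r j hr1 hj3
      rw [div_le_iff₀ hj2]
      calc x = x / c * j * (c / j) := by field_simp
        _ ≤ x / c * j * V1 (yy r j) := mul_le_mul_of_nonneg_left h7 (by positivity)
    calc (((TT x r j : ℕ) : ℝ) ^ R0) ^ 2 = ((TT x r j : ℕ) : ℝ) ^ (2 * R0) := by
          rw [← pow_mul, mul_comm]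
      _ ≤ (x / c * j) ^ (2 * R0) := pow_le_pow_left₀ (Nat.cast_nonneg _) h5 _
      _ = ((x / c) ^ (2 * R0) * ((j : ℝ) ^ (2 * R0) / 2 ^ j)) * 2 ^ j := by
          rw [mul_pow]
          field_simp
      _ ≤ 1 * 2 ^ j := mul_le_mul_of_nonneg_right hj1.le (by positivity)
      _ = 2 ^ j := one_mul _
  have hev := hPo.and (hTR.and ((hTt.eventually_ge_atTop T0).and
    (((yy_tendsto hr1).eventually_ge_atTop y0).and hvpos)))
  obtain ⟨j0, hj0⟩ := eventually_atTop.1 hev
  -- both bounds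
  have key : ∀ j, j0 ≤ j → ∀ Z Y : ℕ, √((2:ℝ) ^ j) ≤ Y → 2 ^ j ≤ Z + 1 → Z + Y < 2 ^ (j + 1) →
      |(((Ioc Z (Z + Y)).filter (fun n => n ∈ ES x r A)).card : ℝ) - Y * Po x A| ≤ ε * Y := by
    intro j hj Z Y hY h1 h2
    obtain ⟨g1, g2, g3, g4, g5⟩ := hj0 j hj
    have hyY : (yy r j) ^ K0 ≤ Y := by
      have := (yy_pow hr1 (by omega : 2 * K0 ≤ r) j).trans hY
      exact_mod_cast this
    have hTRY : (TT x r j) ^ R0 ≤ Y := by exact_mod_cast g2.trans hY
    have hTVx : (TT x r j : ℝ) * V1 (yy r j) ≤ x := by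
      have h3 : (TT x r j : ℝ) ≤ x / V1 (yy r j) := Nat.floor_le (by positivity)
      rwa [le_div_iff₀ g5] at h3
    have h3 := h Z Y (yy r j) (TT x r j) g4 hyY g3 hTRY hTVx A
    have h4 : (Ioc Z (Z + Y)).filter (fun n => n ∈ ES x r A) =
        (Ioc Z (Z + Y)).filter (fun n => Ns (yy r j) (TT x r j) n ∈ A) := by
      apply Finset.filter_congr
      intro n hn
      unfold ES
      rw [Set.mem_ofPred_eq, log_of_mem h1 h2 hn]
    rw [h4]
    have h5 : |(Y : ℝ) * Po ((TT x r j : ℝ) * V1 (yy r j)) A - Y * Po x A| ≤ ε / 2 * Y := by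
      rw [← mul_sub, abs_mul, Nat.abs_cast, mul_comm]
      exact mul_le_mul_of_nonneg_right g1.le (Nat.cast_nonneg _)
    have h6 := abs_sub_le (((Ioc Z (Z + Y)).filter (fun n => Ns (yy r j) (TT x r j) n ∈ A)).card : ℝ)
      ((Y : ℝ) * Po ((TT x r j : ℝ) * V1 (yy r j)) A) (Y * Po x A)
    have h7 : |(((Ioc Z (Z + Y)).filter (fun n => Ns (yy r j) (TT x r j) n ∈ A)).card : ℝ) -
        (Y : ℝ) * Po ((TT x r j : ℝ) * V1 (yy r j)) A| ≤ ε / 2 * Y := h3
    linarith
  constructor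
  · refine ⟨j0, fun j hj Z Y hY h1 h2 => ?_⟩
    have h3 := (abs_le.1 (key j hj Z Y hY h1 h2)).2
    have h4 : (((Ioc Z (Z + Y)).filter (fun n => n ∈ ES x r A)).card : ℝ) ≤ (Po x A + ε) * Y := by
      linarith
    convert h4
  · refine ⟨j0, fun j hj Z Y hY h1 h2 => ?_⟩
    have h3 := (abs_le.1 (key j hj Z Y hY h1 h2)).1
    have h5 := Finset.card_filter_add_card_filter_not (s := Ioc Z (Z + Y)) (fun n => n ∈ ES x r A)
    rw [Nat.card_Ioc, Nat.add_sub_cancel_left] at h5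
    have h6 : (((Ioc Z (Z + Y)).filter (fun n => n ∈ ES x r A)).card : ℝ) +
        (((Ioc Z (Z + Y)).filter (fun n => ¬ n ∈ ES x r A)).card : ℝ) = Y := by exact_mod_cast h5
    have h4 : (((Ioc Z (Z + Y)).filter (fun n => ¬ n ∈ ES x r A)).card : ℝ) ≤
        (1 - Po x A + ε) * Y := by
      linarith
    convert h4


end Pool.Agent.R306.One
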